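import Pool.Agent.Run7.h849.SC.Cso

/-!
# Crossing disks of diagrams of signed even chains

The sliced oriented diagrams, `OIsotopic`, `dirs` and the HOMFLYPT polynomial (`Rlm`, `IsHomfly`; the
variables `v`, `z` are called `l`, `m` there) are those of `Pool.Agent.Helper454.Wh.Defs`. The
diagrams of signed chains are defined in `Pool.Agent.Run7.h849.SC.Dfn`.

Let `D = x ++ p :: y` be a diagram, and let the crossing `p` join two strands with the same direction
(read from top to bottom). The vertical disk through the crossing is a crossing disk: one strand
passes it from the left to the right, the other one from the right to the left. Full twists along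
this disk replace the crossing by a row of `|m|` crossings side by side, `m` odd: `row m i b`.
`row 1 i b` is the crossing `pos i`, and `row (-1) i b` is the crossing `neg i`, so one of these two
diagrams is `D` and the other one is the diagram with the crossing change.
-/

set_option autoImplicit false

namespace Pool.Agent.Results.MP_53ad48_gt.SignedChainDisks

open Pool.Agent.Helper454.Wh (OPiece OWord OClosed OIsotopic Rlm IsHomfly dirs)
open Pool.Agent.Helper454.Wh.OPiece (pos neg)
open Run7.h849.SC

/-- `D` with a crossing of the strands `i`, `i + 1` between `x` and `y` replaced by a row of `|m|`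
crossings side by side (two neighbouring crossings are joined by a maximum and a minimum), all of
them `pos` for `m > 0` and `neg` for `m < 0`. -/
def twisted (x y : OWord) (i : ℕ) (m : ℤ) : OWord :=
  x ++ chain (List.replicate m.natAbs m.sign) i (dirs x i) ++ y

/-- Let `w` be a base diagram with even chains of bands such that all bands with a single crossing
have the same sign, and let `p` be a crossing of `expand w` which has an equal crossing next to it
(that is, a crossing of a band with at least two crossings). Then `p` joins two strands with the
same direction, and the links which are obtained by full twists along the crossing disk of `p` are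
pairwise different: they are not isotopic, and have different HOMFLYPT polynomials. -/
theorem result :
    (∃ P : OWord → Rlm, IsHomfly P) ∧
    ∀ w : List Bz, Chained w → ((∀ n ∈ bands w, n ≠ -1) ∨ (∀ n ∈ bands w, n ≠ 1)) →
      OClosed (expand w) ∧
      ∀ (x : OWord) (p : OPiece) (y : OWord) (i : ℕ), expand w = x ++ p :: y →
        (p = pos i ∨ p = neg i) → (p ∈ x.getLast? ∨ p ∈ y.head?) →
        dirs x i = dirs x (i + 1) ∧
        twisted x y i 1 = x ++ pos i :: y ∧ twisted x y i (-1) = x ++ neg i :: y ∧
        (∀ m : ℤ, m % 2 = 1 → OClosed (twisted x y i m)) ∧
        ∀ m m' : ℤ, m % 2 = 1 → m' % 2 = 1 → m ≠ m' →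
          ¬ OIsotopic (twisted x y i m) (twisted x y i m') ∧
          ∀ P : OWord → Rlm, IsHomfly P → P (twisted x y i m) ≠ P (twisted x y i m') := by
  refine ⟨Pool.Agent.Helper454.Wh.Homf.exists_homfly, fun w hw h => ⟨closed_expand hw, ?_⟩⟩
  intro x p y i e hp ht
  obtain ⟨h1, h2⟩ := main_final hw h hp e ht
  have e1 : ∀ q : OPiece, x ++ [q] ++ y = x ++ q :: y := fun q => by simp
  refine ⟨main_dirs hw hp e, e1 (pos i), e1 (neg i), h1, fun m m' hm hm' hmm => ⟨fun hiso => ?_,
    fun P hP => h2 P hP m m' hm hm' hmm⟩⟩
  obtain ⟨P, hP⟩ := Pool.Agent.Helper454.Wh.Homf.exists_homfly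
  exact h2 P hP m m' hm hm' hmm (hP.1.isotopy _ _ hiso)

end Pool.Agent.Results.MP_53ad48_gt.SignedChainDisks
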